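import Pool.Agent.J4H13.LC.Conic

/-!
# Bloch's conjecture for correspondences in the group ring of covers branched along a conic and lines

Let `C` be a smooth conic in the plane and let `K` be the function field of a surface over `ℂ`, generated by
algebraically independent elements `x`, `y`, a square root `w₀` of `C(1, x, y)` times a product of polynomials
of degree at most `1` in `x` and `y`, and square roots `w i` of products of such polynomials: any Galois cover of
`P²` with a group `G = (ℤ/2)^r` which is branched along `C` and lines. The number and the configuration of the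
lines are arbitrary, and so are `p_g` and `q`.

Let `Γ = ∑ c j * g j` be an element of the group ring `ℚ[G]`, regarded as a self-correspondence of the
surface. The theorem: if `Γ` acts as zero on the regular 2-forms and on the regular 1-forms, then `Γ_* z = 0`
for all zero-cycles `z` of degree zero (with rational coefficients), on every projective model and in every
projective variety to which the surface is mapped.

Precisely, let `X` be a projective variety over `ℂ` and `ξ` a point of `X` with coordinates in `K` (for
instance the generic point of a projective model of `K`). There is an affine model `Spec B` of the cover,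
that is, a finitely generated subalgebra `B` of `K`, such that the points `g j ξ` are defined on it and
`∑ c j [φ (g j ξ)]` has the same class in `CH_0 (X) ⊗ ℚ` for all points `φ` of `Spec B`. The points `φ ξ` fill
a dense open subset of the closure of `ξ`, and `∑ c j [φ (g j ξ)] = Γ_* [φ ξ]`.

The proof is that of `MP_7ebcb6_ag/ConicLineCovers`, applied to those characters of `G` on which `Γ` acts as a
nonzero scalar; there are no regular forms with such a character.
-/

namespace Pool.Agent.Results.MP_31564d_ag.GroupRingConicCovers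

open Pool.Agent.J4H13.BD Pool.Agent.J4H13.LA Pool.Agent.Helper397.HK

/-- Bloch's conjecture for the correspondences in the group ring of a cover of the plane with a group
`(ℤ/2)^r` branched along a smooth conic and lines -/
theorem result {K : Type} [Field K] [Algebra ℂ K] {x y : K}
    (hxy : AlgebraicIndependent ℂ ![x, y]) {C : MvPolynomial (Fin 3) ℂ} (hC : C.IsHomogeneous 2)
    (hCs : ∀ p : Fin 3 → ℂ, p ≠ 0 → MvPolynomial.eval p C = 0 →
      ∃ i, MvPolynomial.eval p (MvPolynomial.pderiv i C) ≠ 0)
    {w₀ : K} (hw₀ : ∃ (m : ℕ) (l : Fin m → Fin 3 → ℂ), (∀ j, l j ≠ 0) ∧ w₀ ^ 2 =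
      MvPolynomial.aeval ![1, x, y] C *
        ∏ j, (algebraMap ℂ K (l j 0) + algebraMap ℂ K (l j 1) * x + algebraMap ℂ K (l j 2) * y))
    {k : ℕ} {w : Fin k → K}
    (hw : ∀ i, ∃ (m : ℕ) (l : Fin m → Fin 3 → ℂ), (∀ j, l j ≠ 0) ∧ w i ^ 2 =
      ∏ j, (algebraMap ℂ K (l j 0) + algebraMap ℂ K (l j 1) * x + algebraMap ℂ K (l j 2) * y))
    (hK : IntermediateField.adjoin ℂ ({x, y, w₀} ∪ Set.range w) = ⊤)
    {n : ℕ} {c : Fin n → ℚ} {g : Fin n → K ≃ₐ[ℂ] K} (hg : ∀ j, g j x = x ∧ g j y = y)
    (h2 : KillsTwo c g) (h1 : KillsOne c g) {N : ℕ} {X : ProjVar N} {ξ : Fin (N + 1) → K}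
    (hξ : ξ ∈ X.Pts K) :
    ∃ (B : Subalgebra ℂ K) (hB : ∀ j i, g j (ξ i) ∈ B), B.FG ∧
      ∀ (φ φ' : B →ₐ[ℂ] ℂ) (p p' : Fin n → X.Pts ℂ),
        (∀ j i, (p j).1 i = φ ⟨g j (ξ i), hB j i⟩) →
        (∀ j i, (p' j).1 i = φ' ⟨g j (ξ i), hB j i⟩) →
        ∑ j, c j • cls (p j) = ∑ j, c j • cls (p' j) := by
  refine Pool.Agent.J4H13.LC.corr_conic hxy hC hCs ?_ ?_ hK hg h2 h1 hξ
  · obtain ⟨m, l, hl, h⟩ := hw₀
    refine ⟨m, l, hl, ?_⟩
    rw [h]
    congr 1
    exact Finset.prod_congr rfl fun j _ => (ev_gp x y (l j)).symm
  · intro i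
    obtain ⟨m, l, hl, h⟩ := hw i
    refine ⟨m, l, hl, ?_⟩
    rw [h]
    exact Finset.prod_congr rfl fun j _ => (ev_gp x y (l j)).symm

end Pool.Agent.Results.MP_31564d_ag.GroupRingConicCovers
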