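import Pool.Agent.J4H13.BD.Final

/-!
# Bloch's conjecture for correspondences in the group ring of covers of the plane branched along lines

Let `K` be the function field of a surface over `ℂ`, generated by algebraically independent elements `x`, `y`
and by square roots `w i` of products of polynomials of degree at most `1` in `x` and `y`. So the surface is
any Galois cover of `P²` with the group `G = (ℤ/2)^r` which is branched along lines; the number and the
configuration of the lines are arbitrary, and so are `p_g` and `q`.

Let `Γ = ∑ c j * g j` be an element of the group ring `ℚ[G]`, regarded as a self-correspondence of the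
surface. The theorem: if `Γ` acts as zero on the regular 2-forms and on the regular 1-forms, then `Γ_* z = 0`
for all zero-cycles `z` of degree zero (with rational coefficients), on every projective model and in every
projective variety to which the surface is mapped.

Precisely, let `X` be a projective variety over `ℂ` and `ξ` a point of `X` with coordinates in `K` (for
instance the generic point of a projective model of `K`). There is an affine model `Spec B` of the cover,
that is, a finitely generated subalgebra `B` of `K`, such that the points `g j ξ` are defined on it and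
`∑ c j [φ (g j ξ)]` has the same class in `CH_0 (X) ⊗ ℚ` for all points `φ` of `Spec B`. The points `φ ξ` fill
a dense open subset of the closure of `ξ`, and `∑ c j [φ (g j ξ)] = Γ_* [φ ξ]`.

Proof. Let `S` be a set of indices and `w S` the product of the `w i`, `i ∈ S`; it defines a character of `G`. If
`Γ` acts as a nonzero scalar on it, then there are no regular forms `A dx dy / w S` and `(A dx + B dy) / w S`, as
`Γ` multiplies them by the same scalar. The arrangement of the lines in the double plane `v² = (w S)²` has then
a point of multiplicity at least `2 d - 2`, where `2 d` is the number of the lines: otherwise there is a form `A`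
of degree `d - 3` with multiplicities at least `⌊r / 2⌋ - 1` at the points on `r` lines, a product of lines which is
found by induction with a counting argument. So the double plane is rational. Now `Γ` is a combination of
the norms of the stabilizers of these `w S` and of the norm of `G`, and each of these maps all general points
to the same class.
-/

namespace Pool.Agent.Results.MP_31564d_ag.GroupRingLineCovers

open Pool.Agent.J4H13.BD Pool.Agent.J4H13.LA Pool.Agent.Helper397.HK

/-- Bloch's conjecture for the correspondences in the group ring of a cover of the plane with the group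
`(ℤ/2)^r` branched along lines -/
theorem result {K : Type} [Field K] [Algebra ℂ K] {x y : K}
    (hxy : AlgebraicIndependent ℂ ![x, y]) {k : ℕ} {w : Fin k → K}
    (hw : ∀ i, ∃ (m : ℕ) (l : Fin m → Fin 3 → ℂ), (∀ j, l j ≠ 0) ∧ w i ^ 2 =
      ∏ j, (algebraMap ℂ K (l j 0) + algebraMap ℂ K (l j 1) * x + algebraMap ℂ K (l j 2) * y))
    (hK : IntermediateField.adjoin ℂ ({x, y} ∪ Set.range w) = ⊤)
    {n : ℕ} {c : Fin n → ℚ} {g : Fin n → K ≃ₐ[ℂ] K} (hg : ∀ j, g j x = x ∧ g j y = y)
    (h2 : KillsTwo c g) (h1 : KillsOne c g) {N : ℕ} {X : ProjVar N} {ξ : Fin (N + 1) → K}
    (hξ : ξ ∈ X.Pts K) :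
    ∃ (B : Subalgebra ℂ K) (hB : ∀ j i, g j (ξ i) ∈ B), B.FG ∧
      ∀ (φ φ' : B →ₐ[ℂ] ℂ) (p p' : Fin n → X.Pts ℂ),
        (∀ j i, (p j).1 i = φ ⟨g j (ξ i), hB j i⟩) →
        (∀ j i, (p' j).1 i = φ' ⟨g j (ξ i), hB j i⟩) →
        ∑ j, c j • cls (p j) = ∑ j, c j • cls (p' j) := by
  refine corr_lines hxy ?_ hK hg h2 h1 hξ
  intro i
  obtain ⟨m, l, hl, h⟩ := hw i
  refine ⟨m, l, hl, ?_⟩
  rw [h]
  exact Finset.prod_congr rfl fun j _ => (ev_gp x y (l j)).symm

end Pool.Agent.Results.MP_31564d_ag.GroupRingLineCovers
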