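import Pool.Agent.J4H13.TG.KC3
import Pool.Agent.J4H13.TG.Final

/-!
# Bloch's conjecture for correspondences in the group ring of triple covers of the plane branched along lines

Let `K` be the function field of a surface over `ℂ`, generated by algebraically independent elements `x`, `y`
and by cube roots `w i` of products of polynomials of degree at most `1` in `x` and `y`. So the surface is
any Galois cover of `P²` with the group `G = (ℤ/3)^r` which is branched along lines; the number and the
configuration of the lines are arbitrary, and so are `p_g` and `q`.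

Let `Γ = ∑ c j * g j` be an element of the group ring `ℚ[G]`, regarded as a self-correspondence of the
surface. The theorem: if `Γ` acts as zero on the regular 2-forms and on the regular 1-forms, then `Γ_* z = 0`
for all zero-cycles `z` of degree zero (with rational coefficients), on every projective model and in every
projective variety to which the surface is mapped.

Precisely, let `X` be a projective variety over `ℂ` and `ξ` a point of `X` with coordinates in `K` (for
instance the generic point of a projective model of `K`). There is an affine model `Spec B` of the cover,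
that is, a finitely generated subalgebra `B` of `K`, such that the points `g j ξ` are defined on it and
`∑ c j [φ (g j ξ)]` has the same class in `CH_0 (X) ⊗ ℚ` for all points `φ` of `Spec B`. The points `φ ξ` fill
a dense open subset of the closure of `ξ`, and `∑ c j [φ (g j ξ)] = Γ_* [φ ξ]`.

Proof. 1. Let `e` be a vector of exponents and `w e = ∏ w i ^ e i`; it defines a character `χ` of `G`. Let `χ (Γ) ≠ 0`.
Then `χ⁻¹ (Γ) ≠ 0` (complex conjugation, `Γ` is rational), and so there are no regular forms
`A dx dy / w e`, `A dx dy / (w e)²` and `(A dx + B dy) / w e`, `(A dx + B dy) / (w e)²`, as `Γ` multiplies them by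
nonzero constants.

2. The triple plane `v³ = (w e)³` is then rational. This is the classification of the lines with weights without
adjoint curves (weighted counting, combinatorial analysis, two theorems of plane geometry over `ℂ`) which is
described in `Pool.Agent.Results.MP_7ebcb6_ag.TripleLineCovers`.

3. Let `S` be the set of the `e` with `χ_e (Γ) ≠ 0`. The idempotent `ε` of `S` is a rational combination of the norms of
the stabilizers of the `w e`, `e` in `S`, and of the norm of `G`; each of these maps all general points to the same
class, and `Γ ε = Γ` in `ℚ[G]`.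
-/

namespace Pool.Agent.Results.MP_31564d_ag.TripleGroupRingLineCovers

open Pool.Agent.J4H13.BD Pool.Agent.J4H13.LA Pool.Agent.Helper397.HK

/-- Bloch's conjecture for the correspondences in the group ring of a cover of the plane with the group
`(ℤ/3)^r` branched along lines -/
theorem result {K : Type} [Field K] [Algebra ℂ K] {x y : K}
    (hxy : AlgebraicIndependent ℂ ![x, y]) {k : ℕ} {w : Fin k → K}
    (hw : ∀ i, ∃ (m : ℕ) (l : Fin m → Fin 3 → ℂ), (∀ j, l j ≠ 0) ∧ w i ^ 3 =
      ∏ j, (algebraMap ℂ K (l j 0) + algebraMap ℂ K (l j 1) * x + algebraMap ℂ K (l j 2) * y))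
    (hK : IntermediateField.adjoin ℂ ({x, y} ∪ Set.range w) = ⊤)
    {n : ℕ} {c : Fin n → ℚ} {g : Fin n → K ≃ₐ[ℂ] K} (hg : ∀ j, g j x = x ∧ g j y = y)
    (h2 : KillsTwo c g) (h1 : KillsOne c g) {N : ℕ} {X : ProjVar N} {ξ : Fin (N + 1) → K}
    (hξ : ξ ∈ X.Pts K) :
    ∃ (B : Subalgebra ℂ K) (hB : ∀ j i, g j (ξ i) ∈ B), B.FG ∧
      ∀ (φ φ' : B →ₐ[ℂ] ℂ) (p p' : Fin n → X.Pts ℂ),
        (∀ j i, (p j).1 i = φ ⟨g j (ξ i), hB j i⟩) →
        (∀ j i, (p' j).1 i = φ' ⟨g j (ξ i), hB j i⟩) →
        ∑ j, c j • cls (p j) = ∑ j, c j • cls (p' j) := by
  refine Pool.Agent.J4H13.TG.corr_lines3 Pool.Agent.J4H13.TG.t_KC3 hxy ?_ hK hg h2 h1 hξ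
  intro i
  obtain ⟨m, l, hl, h⟩ := hw i
  refine ⟨m, l, hl, ?_⟩
  rw [h]
  exact Finset.prod_congr rfl fun j _ => (ev_gp x y (l j)).symm

end Pool.Agent.Results.MP_31564d_ag.TripleGroupRingLineCovers
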